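import Pool.Agent.Helper15.WA.LocDefs
import Pool.Agent.Helper10.GWA.LB
import Pool.Agent.Helper10.GWA.GCard
import Pool.Agent.Helper9.GWA.GNear

/-!
# GWA module TRA: scaling and affine maps for classes of points
-/

namespace GWA

open Polynomial

/-! ### scaling -/

section scale

variable {K : Type*} [Field K] [DecidableEq K] [NeZero (2 : K)]

theorem nx_tr_id {d d' : K} (hd' : d' ≠ 0) {c : K} (hc : c ≠ 0)
    (hd : (RingHom.id K) d = d' * c ^ 2) (P : E d) :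
    nx (tr (RingHom.id K) hc hd' hd P) = nx P := by
  have hd2 : d = d' * c ^ 2 := hd
  have h1 : nx (tr (RingHom.id K) hc hd' hd P) = xc P / (d' * c ^ 2) := by
    unfold nx
    rw [xc_tr, RingHom.id_apply]
    field_simp
  rw [h1, ← hd2]
  rfl

theorem Rep.tr_id {u : Pt K} {d d' : K} (hd' : d' ≠ 0) {c : K} (hc : c ≠ 0)
    (hd : (RingHom.id K) d = d' * c ^ 2) {P Q : E d} (hu : Rep u d P Q) :
    Rep u d' (tr (RingHom.id K) hc hd' hd P) (tr (RingHom.id K) hc hd' hd Q) := by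
  obtain ⟨h0, hP, hQ, hx, hy, hz⟩ := hu
  have hd2 : d = d' * c ^ 2 := hd
  refine ⟨hd', tr_ne _ _ _ _ hP, tr_ne _ _ _ _ hQ, ?_, ?_, ?_⟩
  · rw [xc_tr, RingHom.id_apply, ← hx, hd2]
    field_simp
  · rw [xc_tr, RingHom.id_apply, ← hy, hd2]
    field_simp
  · rw [yc_tr, yc_tr, RingHom.id_apply, RingHom.id_apply]
    have h1 : yc P / c ^ 3 * (yc Q / c ^ 3) = (yc P * yc Q) / c ^ 6 := by
      field_simp
    rw [h1, ← hz, hd2]
    field_simp

theorem tr_id_surj {d d' : K} (hd0 : d ≠ 0) (hd' : d' ≠ 0) {c : K} (hc : c ≠ 0)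
    (hd : (RingHom.id K) d = d' * c ^ 2) (P : E d') :
    ∃ P₁ : E d, tr (RingHom.id K) hc hd' hd P₁ = P := by
  have hd2 : d = d' * c ^ 2 := hd
  have hi : (RingHom.id K) d' = d * (c⁻¹) ^ 2 := by
    rw [RingHom.id_apply, hd2]; field_simp
  have hci : c⁻¹ ≠ 0 := inv_ne_zero hc
  refine ⟨tr (RingHom.id K) hci hd0 hi P, ?_⟩
  by_cases hP : P = 0
  · rw [hP, map_zero, map_zero]
  · apply pt_ext (tr_ne _ _ _ _ (tr_ne _ _ _ _ hP)) hP
    · rw [xc_tr, RingHom.id_apply, xc_tr, RingHom.id_apply]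
      field_simp
    · rw [yc_tr, RingHom.id_apply, yc_tr, RingHom.id_apply]
      field_simp

theorem SRel.tr_left {d d' : Kˣ} {c : K} (hc : c ≠ 0)
    (hd : (RingHom.id K) (d : K) = (d' : K) * c ^ 2) {P Q : E (d : K)}
    {t : Σ d : Kˣ, E (d : K) × E (d : K)} (h : SRel ⟨d, P, Q⟩ t) :
    SRel ⟨d', tr (RingHom.id K) hc d'.ne_zero hd P, tr (RingHom.id K) hc d'.ne_zero hd Q⟩ t := by
  obtain ⟨u, hI, h1, h2⟩ := h
  exact ⟨u, hI, Rep.tr_id d'.ne_zero hc hd h1, h2⟩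

end scale

section TRANS

variable {K : Type} [NormedField K] [Algebra GaussianInt K] [NeZero (2 : K)] [DecidableEq K]
  {π : GaussianInt} {A : Set (FLD K π).Sys}

theorem tr_id_mem_nb {d d' : K} (hd0 : d ≠ 0) (hd' : d' ≠ 0) {c : K} (hc : c ≠ 0)
    (hd : (RingHom.id K) d = d' * c ^ 2) (P : E d) (n : ℕ) :
    tr (RingHom.id K) hc hd' hd P ∈ nb π d' n ↔ P ∈ nb π d n := by
  unfold nb
  rw [mem_nbh_iff hd', mem_nbh_iff hd0, nx_tr_id hd' hc hd]
  apply or_congr _ Iff.rfl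
  constructor
  · intro h
    by_contra hP
    exact tr_ne _ _ _ _ hP h
  · rintro rfl
    exact map_zero _

/-- scaling invariance of stable sets at points with an image under the involution -/
theorem LD.LStable.scale_mem (hA : (FLD K π).LStable A) {d d' : Kˣ} {c : K}
    (hc : c ≠ 0) (hd : (RingHom.id K) (d : K) = (d' : K) * c ^ 2) {P Q : E (d : K)}
    (ht : (⟨d, P, Q⟩ : (FLD K π).Sys) ∈ A) (hS : ∃ t' : (FLD K π).Sys, (FLD K π).S t' ⟨d, P, Q⟩) :
    (⟨d', tr (RingHom.id K) hc d'.ne_zero hd P, tr (RingHom.id K) hc d'.ne_zero hd Q⟩ :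
      (FLD K π).Sys) ∈ A := by
  obtain ⟨t', h⟩ := hS
  have h1 : SRel ⟨d, P, Q⟩ t' := SRel.symm h
  have h2 := SRel.tr_left hc hd h1
  have h3 : t' ∈ A := hA.sig _ _ h1 ht
  exact hA.sig _ _ h2.symm h3

/-- scaling invariance of the classes contained in a stable set -/
theorem LocHyp.Cl_scale_of (h : LocHyp K π)
    (hdens : ∀ (t : (FLD K π).Sys) (n : ℕ), ∃ t', (FLD K π).close n t' t ∧ ∃ t'', (FLD K π).S t'' t')
    (hA : (FLD K π).LStable A) {d d' : Kˣ} {c : K}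
    (hc : c ≠ 0) (hd : (RingHom.id K) (d : K) = (d' : K) * c ^ 2) {P Q : E (d : K)}
    (hC : Cl A d P Q) :
    Cl A d' (tr (RingHom.id K) hc d'.ne_zero hd P) (tr (RingHom.id K) hc d'.ne_zero hd Q) := by
  intro P' Q' hP' hQ'
  obtain ⟨P₁, rfl⟩ := tr_id_surj d.ne_zero d'.ne_zero hc hd P'
  obtain ⟨Q₁, rfl⟩ := tr_id_surj d.ne_zero d'.ne_zero hc hd Q'
  rw [← map_sub, tr_id_mem_nb d.ne_zero d'.ne_zero hc hd] at hP' hQ'
  apply hA.cl
  intro n
  obtain ⟨t', ⟨P₂, Q₂, rfl, h1, h2⟩, hS⟩ : ∃ t' : (FLD K π).Sys,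
      (∃ P₂ Q₂ : E (d : K), t' = (⟨d, P₂, Q₂⟩ : (FLD K π).Sys) ∧
      P₂ - P₁ ∈ nb π (d : K) n ∧ Q₂ - Q₁ ∈ nb π (d : K) n) ∧ ∃ t'', (FLD K π).S t'' t' :=
    hdens ⟨d, P₁, Q₁⟩ n
  have h1' : P₂ - P₁ ∈ nb π (d : K) 0 := nbh_anti h.one_lt_inv.le _ (Nat.zero_le n) h1
  have h2' : Q₂ - Q₁ ∈ nb π (d : K) 0 := nbh_anti h.one_lt_inv.le _ (Nat.zero_le n) h2
  have h3 : P₂ - P ∈ nb π (d : K) 0 := by
    have := h.nb_add d.ne_zero 0 h1' hP'
    rwa [sub_add_sub_cancel] at this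
  have h4 : Q₂ - Q ∈ nb π (d : K) 0 := by
    have := h.nb_add d.ne_zero 0 h2' hQ'
    rwa [sub_add_sub_cancel] at this
  refine ⟨_, hA.scale_mem hc hd (hC P₂ Q₂ h3 h4) hS, _, _, rfl, ?_, ?_⟩
  · change tr (RingHom.id K) hc d'.ne_zero hd P₂ - tr (RingHom.id K) hc d'.ne_zero hd P₁ ∈
      nb π (d' : K) n
    rw [← map_sub, tr_id_mem_nb d.ne_zero d'.ne_zero hc hd]
    exact h1
  · change tr (RingHom.id K) hc d'.ne_zero hd Q₂ - tr (RingHom.id K) hc d'.ne_zero hd Q₁ ∈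
      nb π (d' : K) n
    rw [← map_sub, tr_id_mem_nb d.ne_zero d'.ne_zero hc hd]
    exact h2

theorem LocHyp.Cl_congr (h : LocHyp K π) {d : Kˣ} {P Q P' Q' : E (d : K)}
    (hP : P' - P ∈ nb π (d : K) 0) (hQ : Q' - Q ∈ nb π (d : K) 0) (hC : Cl A d P Q) :
    Cl A d P' Q' := by
  intro P₁ Q₁ h1 h2
  apply hC
  · have := h.nb_add d.ne_zero 0 h1 hP
    rwa [sub_add_sub_cancel] at this
  · have := h.nb_add d.ne_zero 0 h2 hQ
    rwa [sub_add_sub_cancel] at this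

theorem LocHyp.Cl_aff (h : LocHyp K π) (hA : (FLD K π).LStable A) {d : Kˣ} {P Q : E (d : K)}
    (α β γ δ κ μ : GaussianInt) (hu : IsUnit (α * δ - β * γ)) (hC : Cl A d P Q) :
    Cl A d (α • P + β • Q + κ • T d.ne_zero) (γ • P + δ • Q + μ • T d.ne_zero) := by
  intro P' Q' hP' hQ'
  obtain ⟨v, hv⟩ := hu.exists_left_inv
  set ε₁ := P' - (α • P + β • Q + κ • T d.ne_zero) with hε₁
  set ε₂ := Q' - (γ • P + δ • Q + μ • T d.ne_zero) with hε₂
  have e1 : P' = α • P + β • Q + κ • T d.ne_zero + ε₁ := by rw [hε₁]; abel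
  have e2 : Q' = γ • P + δ • Q + μ • T d.ne_zero + ε₂ := by rw [hε₂]; abel
  set η₁ := (v * δ) • ε₁ + (-(v * β)) • ε₂ with hη₁
  set η₂ := (-(v * γ)) • ε₁ + (v * α) • ε₂ with hη₂
  have m1 : η₁ ∈ nb π (d : K) 0 :=
    h.nb_add d.ne_zero 0 (h.nb_smul d 0 _ hP') (h.nb_smul d 0 _ hQ')
  have m2 : η₂ ∈ nb π (d : K) 0 :=
    h.nb_add d.ne_zero 0 (h.nb_smul d 0 _ hP') (h.nb_smul d 0 _ hQ')
  have h1 := hC (P + η₁) (Q + η₂) (by rwa [add_sub_cancel_left]) (by rwa [add_sub_cancel_left])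
  have h2 := hA.aff α β γ δ κ μ hu _ h1
  have c1 : α * (v * δ) + β * (-(v * γ)) = 1 := by linear_combination hv
  have c2 : α * (-(v * β)) + β * (v * α) = 0 := by ring
  have c3 : γ * (v * δ) + δ * (-(v * γ)) = 0 := by ring
  have c4 : γ * (-(v * β)) + δ * (v * α) = 1 := by linear_combination hv
  have g1 : α • η₁ + β • η₂ = ε₁ := by
    rw [hη₁, hη₂, smul_add, smul_add, ← mul_smul, ← mul_smul, ← mul_smul, ← mul_smul,
      add_add_add_comm, ← add_smul, ← add_smul, c1, c2, one_smul, zero_smul, add_zero]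
  have g2 : γ • η₁ + δ • η₂ = ε₂ := by
    rw [hη₁, hη₂, smul_add, smul_add, ← mul_smul, ← mul_smul, ← mul_smul, ← mul_smul,
      add_add_add_comm, ← add_smul, ← add_smul, c3, c4, one_smul, zero_smul, zero_add]
  have f1 : α • (P + η₁) + β • (Q + η₂) + κ • T d.ne_zero = P' := by
    rw [e1, ← g1, smul_add α P, smul_add β Q]
    clear_value η₁ η₂
    abel
  have f2 : γ • (P + η₁) + δ • (Q + η₂) + μ • T d.ne_zero = Q' := by
    rw [e2, ← g2, smul_add γ P, smul_add δ Q]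
    clear_value η₁ η₂
    abel
  have h3 : (⟨d, α • (P + η₁) + β • (Q + η₂) + κ • T d.ne_zero,
      γ • (P + η₁) + δ • (Q + η₂) + μ • T d.ne_zero⟩ : (FLD K π).Sys) ∈ A := h2
  rwa [f1, f2] at h3

/-- Euclid -/
theorem LocHyp.Cl_coprime (h : LocHyp K π) (hA : (FLD K π).LStable A) {d : Kˣ} {P : E (d : K)}
    {α β : GaussianInt} (hab : IsCoprime α β) : Cl A d P 0 ↔ Cl A d (α • P) (β • P) := by
  obtain ⟨u, v, huv⟩ := hab
  constructor
  · intro hC
    have := h.Cl_aff hA α (-v) β u 0 0 (by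
      have : α * u - -v * β = 1 := by linear_combination huv
      rw [this]; exact isUnit_one) hC
    rwa [smul_zero, smul_zero, zero_smul, add_zero, add_zero, add_zero, add_zero] at this
  · intro hC
    have := h.Cl_aff hA u v (-β) α 0 0 (by
      have : u * α - v * -β = 1 := by linear_combination huv
      rw [this]; exact isUnit_one) hC
    have e1 : u • α • P + v • β • P = P := by
      rw [← mul_smul, ← mul_smul, ← add_smul, huv, one_smul]
    have e2 : (-β) • α • P + α • β • P = 0 := by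
      rw [← mul_smul, ← mul_smul, ← add_smul]
      have : -β * α + α * β = 0 := by ring
      rw [this, zero_smul]
    rwa [zero_smul, add_zero, add_zero, e1, e2] at this

end TRANS

end GWA
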