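import Pool.Agent.Helper67.GWA.TRA
import Pool.Agent.Helper22.GWA.DLIM
import Pool.Agent.Helper9.GWA.FINB

/-!
# GWA module TRA, second part: scaling invariance of classes
-/

namespace GWA

section TRANS

variable {K : Type} [NormedField K] [Algebra GaussianInt K] [NeZero (2 : K)] [DecidableEq K]
  {π : GaussianInt} {A : Set (FLD K π).Sys}

/-- scaling invariance of the classes contained in a stable set -/
theorem LocHyp.Cl_scale (h : LocHyp K π) (hA : (FLD K π).LStable A) {d d' : Kˣ} {c : K}
    (hc : c ≠ 0) (hd : (RingHom.id K) (d : K) = (d' : K) * c ^ 2) {P Q : E (d : K)}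
    (hC : Cl A d P Q) :
    Cl A d' (tr (RingHom.id K) hc d'.ne_zero hd P) (tr (RingHom.id K) hc d'.ne_zero hd Q) :=
  h.Cl_scale_of (fun t n => dens_of_infinite (fun _ hd n => h.nb_infinite hd n) t n) hA hc hd hC

end TRANS

end GWA
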